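import Pool.Agent.H192KB.Spec
import Pool.Agent.W619.Y.Main

/-! Curves on the projective varieties dominated by the product of a variety and curves. -/

set_option autoImplicit false
set_option linter.overlappingInstances false
set_option linter.unusedSectionVars false

universe u v

open FF IntermediateField Pool.Agent.W619.PQ Pool.Agent.W619.TW Pool.Agent.W619.PL
  Pool.Agent.W619.X Pool.Agent.W619.Y

namespace Pool.Agent.H192KB

section

variable {k : Type v} [Field k] {L : Type u} [Field L] [Algebra k L]

/-- One of the curves as a curve over the function field of the product of the others and `Y`. -/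
theorem cur_mixed {d n : ℕ} (M : IntermediateField k L) (F : Fin n → IntermediateField k L)
    [∀ i, IsFF k (F i)] (hd : Algebra.trdeg k M = d)
    (hn : Algebra.trdeg k L = (d + n : ℕ)) (hsup : M ⊔ (⨆ i, F i) = ⊤) (i0 : Fin n) :
    Cur (M ⊔ ⨆ j : {j : Fin n // j ≠ i0}, F j.1) (F i0) := by
  classical
  let ι := {j : Fin n // j ≠ i0}
  let M' : IntermediateField k L := M ⊔ ⨆ j : ι, F j.1
  have hle0 : M ≤ M' := le_sup_left
  have hle : ∀ j, j ≠ i0 → F j ≤ M' := fun j hj =>
    le_trans (le_iSup (fun j : ι => F j.1) ⟨j, hj⟩) le_sup_right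
  refine ⟨inferInstance, ?_, ?_⟩
  · intro t ht halg
    choose x hx using fun i => IsFF.exists_transcendental (k := k) (K := F i)
    obtain ⟨s, hs⟩ := exists_isTranscendenceBasis k M
    let T : Set L := (Subtype.val '' s) ∪ Set.range fun j : ι => (x j.1 : L)
    let S : IntermediateField k L := adjoin k T
    let A : IntermediateField S L := algebraicClosure S L
    have h0 : M' ≤ A.restrictScalars k := by
      refine sup_le ?_ (iSup_le fun j z hz => ?_)
      · intro z hz
        rw [mem_restrictScalars, mem_algebraicClosure_iff]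
        exact Pool.Agent.W318.PG.URAT.alg_of_basis M s hs S
          (fun y hy => subset_adjoin k _ (Or.inl ⟨y, hy, rfl⟩)) ⟨z, hz⟩
      · rw [mem_restrictScalars, mem_algebraicClosure_iff]
        exact alg_of_mem (F j.1) (hx j.1) S (subset_adjoin k _ (Or.inr ⟨j, rfl⟩)) ⟨z, hz⟩
    have hMA : ∀ z ∈ M', z ∈ A := fun z hz => h0 hz
    let f : M' →+* A := (algebraMap M' L).codRestrict A fun z => hMA z z.2
    have htA : IsAlgebraic A (t : L) :=
      halg.ringHom_of_comp_eq f (RingHom.id L) f.injective (by ext z; rfl)
    have htA' : (t : L) ∈ A.restrictScalars k := by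
      rw [mem_restrictScalars, mem_algebraicClosure_iff]
      exact htA.restrictScalars S
    have htop : ∀ z : L, z ∈ A.restrictScalars k := by
      have h1 : (⊤ : IntermediateField k L) ≤ A.restrictScalars k := by
        rw [← hsup]
        refine sup_le (hle0.trans h0) (iSup_le fun j => ?_)
        by_cases hj : j = i0
        · subst hj
          intro z hz
          have h2 : IsAlgebraic (A.restrictScalars k) z :=
            alg_of_mem (F j) ht (A.restrictScalars k) htA' ⟨z, hz⟩
          rw [mem_restrictScalars, mem_algebraicClosure_iff]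
          have h3 : IsAlgebraic A z := h2
          exact h3.restrictScalars S
        · exact (hle j hj).trans h0
      exact fun z => h1 trivial
    have hLA : ∀ z : L, IsAlgebraic S z := by
      intro z
      have h1 := htop z
      rw [mem_restrictScalars, mem_algebraicClosure_iff] at h1
      exact h1
    have h4 : Algebra.IsAlgebraic (Algebra.adjoin k T) L := Pool.Agent.W619.PQ.alg_adjoin hLA
    have h5 := Algebra.IsAlgebraic.trdeg_le_cardinalMk k T
    rw [hn] at h5
    have h6 : Cardinal.mk (Set.range fun j : ι => (x j.1 : L)) ≤ ((n - 1 : ℕ) : Cardinal) := by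
      have h7 : Cardinal.lift.{0} (Cardinal.mk (Set.range fun j : ι => (x j.1 : L))) ≤
          Cardinal.lift (Cardinal.mk ι) := Cardinal.mk_range_le_lift
      have h8 : Fintype.card ι = n - 1 := by
        rw [Fintype.card_subtype_compl, Fintype.card_fin, Fintype.card_subtype_eq]
      rw [Cardinal.mk_fintype ι, h8] at h7
      simpa using h7
    have h6' : Cardinal.mk (Subtype.val '' s : Set L) ≤ ((d : ℕ) : Cardinal) := by
      have h7 : Cardinal.mk (Subtype.val '' s : Set L) ≤ Cardinal.mk s := Cardinal.mk_image_le
      have h8 := hs.cardinalMk_eq_trdeg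
      rw [hd] at h8
      exact h7.trans h8.le
    have h7 : Cardinal.mk T ≤ ((d + (n - 1) : ℕ) : Cardinal) := by
      refine (Cardinal.mk_union_le _ _).trans ?_
      push_cast
      exact add_le_add h6' h6
    have h8 : d + n ≤ d + (n - 1) := by exact_mod_cast h5.trans h7
    have h9 : 0 < n := i0.pos
    omega
  · rw [eq_top_iff, ← hsup]
    refine sup_le (le_sup_left.trans le_sup_left) (iSup_le fun j => ?_)
    by_cases h : j = i0
    · subst h; exact le_sup_right
    · exact (hle j h).trans le_sup_left

/-- Every map from a rational or an elliptic curve to the projective variety with the generic point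
`x` is constant: here `E` is the function field of the curve, the curve is rational or has a vector
field `D` without zeros and poles, and the map is given by `y`, its value at the generic point of
the curve, in homogeneous coordinates. -/
def NoRatEllCurve (k : Type v) [Field k] {K : Type u} [Field K] [Algebra k K] {N : ℕ}
    (x : Fin (N + 1) → K) : Prop :=
  ∀ (E : Type u) [Field E] [Algebra k E], IsFF k E →
    ((∃ t : E, k⟮t⟯ = ⊤) ∨
      ∃ D : Derivation k E E, ∀ w : Place k E, ∀ t : E, w.ord t = 1 → D t ≠ 0 ∧ w.ord (D t) = 0) →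
    ∀ y : Fin (N + 1) → E, y ≠ 0 →
      (∀ (Q : MvPolynomial (Fin (N + 1)) k) (d : ℕ), Q.IsHomogeneous d →
        MvPolynomial.aeval x Q = 0 → MvPolynomial.aeval y Q = 0) →
      ∃ (c : Fin (N + 1) → k) (e : E), ∀ i, y i = algebraMap k E (c i) * e

/-- The ratios of the homogeneous coordinates of the generic point `x` of `X` generate the function
field of `X`. -/
def IsGeneric (k : Type v) [Field k] {K : Type u} [Field K] [Algebra k K] {N : ℕ}
    (x : Fin (N + 1) → K) : Prop :=
  x ≠ 0 ∧ adjoin k {z : K | ∃ i j, x j ≠ 0 ∧ z = x i / x j} = ⊤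

/-- None of the curves is rational or elliptic, if every map from a rational or elliptic curve to
`X` is constant. -/
theorem curves_of_hyp [CharZero k] [IsAlgClosed k] {d n : ℕ} (M : IntermediateField k L)
    (F : Fin n → IntermediateField k L)
    [∀ i, IsFF k (F i)] (hd : Algebra.trdeg k M = d)
    (hn : Algebra.trdeg k L = (d + n : ℕ)) (hsup : M ⊔ (⨆ i, F i) = ⊤)
    (G : Subgroup (L ≃ₐ[k] L)) [Finite G] {N : ℕ} (x : Fin (N + 1) → fixedField G)
    (hx : IsGeneric k x) (hno : NoRatEllCurve k x) (i : Fin n) :
    (¬ ∃ t : F i, k⟮t⟯ = ⊤) ∧ ¬ IsElliptic (F i) := by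
  classical
  rw [← not_or]
  intro hE
  obtain ⟨hx0, hgen⟩ := hx
  obtain ⟨p, hp⟩ := Function.ne_iff.1 hx0
  have hp' : x p ≠ 0 := hp
  have hcur := cur_mixed M F hd hn hsup i
  set M' : IntermediateField k L := M ⊔ ⨆ j : {j : Fin n // j ≠ i}, F j.1 with hM'
  have hpL : ((x p : fixedField G) : L) ≠ 0 := fun h => hp' (Subtype.ext h)
  have hnc : ∃ l, ((x l : fixedField G) : L) / ((x p : fixedField G) : L) ∉ M' := by
    by_contra hcon
    push Not at hcon
    have h1 : ∀ z : fixedField G, (z : L) ∈ M' := by
      have h2 : (⊤ : IntermediateField k (fixedField G)) ≤ M'.comap (fixedField G).val := by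
        rw [← hgen, adjoin_le_iff]
        rintro _ ⟨a, b, hb, rfl⟩
        change ((x a / x b : fixedField G) : L) ∈ M'
        have hbL : ((x b : fixedField G) : L) ≠ 0 := fun h => hb (Subtype.ext h)
        have h3 : ((x a / x b : fixedField G) : L) =
            ((x a : fixedField G) : L) / ((x p : fixedField G) : L) /
              (((x b : fixedField G) : L) / ((x p : fixedField G) : L)) := by
          change ((x a : fixedField G) : L) / ((x b : fixedField G) : L) = _
          field_simp
        rw [h3]
        exact div_mem (hcon a) (hcon b)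
      exact fun z => h2 (trivial : z ∈ (⊤ : IntermediateField k (fixedField G)))
    have := hcur.ff
    obtain ⟨t, ht⟩ := IsFF.exists_transcendental (k := k) (K := F i)
    apply hcur.tr t ht
    have hGal : IsGaloisGroup G (fixedField G) L := isGaloisGroup_fixed G
    have hfin : FiniteDimensional (fixedField G) L :=
      IsGaloisGroup.finiteDimensional G (fixedField G) L
    have halg : IsAlgebraic (fixedField G) (t : L) :=
      (Algebra.IsAlgebraic.of_finite (fixedField G) L).isAlgebraic _
    let f : fixedField G →+* M' := ((fixedField G).val : fixedField G →+* L).codRestrict M'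
      fun z => h1 z
    exact halg.ringHom_of_comp_eq f (RingHom.id L) f.injective (by ext z; rfl)
  obtain ⟨y, hy0, hyQ, i1, hi1⟩ := exists_point hcur (fun l => ((x l : fixedField G) : L)) p hpL hnc
  obtain ⟨c, e, hc⟩ := hno (F i) inferInstance hE y (fun h => hy0 (by rw [h]; rfl))
    (fun Q d hQ hQx => hyQ Q d hQ (by
      have h1 := congrArg (fixedField G).val hQx
      rw [map_zero, MvPolynomial.comp_aeval_apply] at h1
      exact h1))
  have hcp : c p ≠ 0 := by
    intro h
    apply hy0
    rw [hc p, h, map_zero, zero_mul]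
  apply hi1 (c i1 / c p)
  rw [hc i1, hc p, map_div₀]
  have h2 : algebraMap k (F i) (c p) ≠ 0 := by
    rw [Ne, map_eq_zero]
    exact hcp
  field_simp

/-- a point -/
theorem kodTr_zero {K : Type*} [Field K] [Algebra k K] : KodTr k K 0 0 := by
  refine ⟨1, le_rfl, fun _ _ => 1, fun l => ⟨fun A D => by simp, fun v _ _ D _ => ?_,
    fun v _ h _ _ => h.elim⟩, fun i => i.elim0, fun _ => one_ne_zero, ?_⟩
  · have h1 : v.ord (1 : K) = 0 := by
      have h2 := v.ord_const (c := (1 : k)) one_ne_zero
      rwa [map_one] at h2
    exact Or.inr ⟨1, Finset.mem_singleton_self _, one_ne_zero, by rw [h1]; simp⟩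
  · rw [algebraicIndependent_empty_type_iff]
    exact (algebraMap k K).injective

/-- **Main theorem.** -/
theorem main [CharZero k] [IsAlgClosed k] (d n : ℕ) (hn : Algebra.trdeg k L = (d + n : ℕ))
    (M : IntermediateField k L) [Algebra.EssFiniteType k M] (hM : Algebra.trdeg k M = d)
    (F : Fin n → IntermediateField k L) [hF : ∀ i, IsFF k (F i)] (hsup : M ⊔ (⨆ i, F i) = ⊤)
    (G : Subgroup (L ≃ₐ[k] L)) [Finite G] (σ : G →* Equiv.Perm (Fin n))
    (hσ : ∀ (g : G) i, ∀ z ∈ F i, (g : L ≃ₐ[k] L) z ∈ F (σ g i))
    (h : MixedPos G σ F) {N : ℕ} (x : Fin (N + 1) → fixedField G) (hx : IsGeneric k x)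
    (hno : NoRatEllCurve k x) (a : ℕ) (ha : KodTr k M d a) :
    KodTr k (fixedField G) (d + n) (a + n) ∧
      KodGe k (fixedField G) (d + n) (fun _ => False) (a + n) := by
  have hcur := curves_of_hyp M F hM hn hsup G x hx hno
  have h3 := (abM d n hn M hM F (alg_of_top M F hsup) G σ hσ h).1 (fun i => (hcur i).1) a ha
  have h4 : {i | ¬ IsElliptic (F i)} = Set.univ := Set.eq_univ_of_forall fun i => (hcur i).2
  rw [h4, Set.ncard_univ, Nat.card_eq_fintype_card, Fintype.card_fin] at h3
  exact h3

end

end Pool.Agent.H192KB
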