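import Pool.Agent.W619.TW.Inter

/-! Specialisation: points of a projective variety with values in the function field of a curve. -/

set_option autoImplicit false
set_option linter.overlappingInstances false
set_option linter.unusedSectionVars false

universe u v

open FF IntermediateField Pool.Agent.W619.PQ Pool.Agent.W619.TW
open scoped TensorProduct

namespace Pool.Agent.H192KB

section

variable {k : Type v} [Field k] {L : Type u} [Field L] [Algebra k L] {M F : IntermediateField k L}

/-- Expansion of the elements of the ring in a basis of `F`. -/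
theorem expandF {z : L} (hz : z ∈ RR M F) :
    ∃ c : Module.Basis.ofVectorSpaceIndex k F →₀ M,
      z = c.sum fun j m => (m : L) * ((Module.Basis.ofVectorSpace k F j : F) : L) := by
  classical
  have h := RR.mem_span hz
  clear hz
  let b := Module.Basis.ofVectorSpace k F
  let P : Submodule M L := Submodule.span M (Set.range fun j => ((b j : F) : L))
  have hF : ∀ f : F, (f : L) ∈ P := by
    intro f
    have h1 : f ∈ Submodule.span k (Set.range b) := by rw [b.span_eq]; trivial
    induction h1 using Submodule.span_induction with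
    | mem x hx =>
      obtain ⟨i, rfl⟩ := hx
      exact Submodule.subset_span ⟨i, rfl⟩
    | zero => exact Submodule.zero_mem _
    | add x y _ _ hx hy => exact Submodule.add_mem _ hx hy
    | smul c x _ hx =>
      have := Submodule.smul_mem P (algebraMap k M c) hx
      convert this using 1
      change ((c • x : F) : L) = _
      rw [Algebra.smul_def, Algebra.smul_def]
      rfl
  have hmul : ∀ (f : F) (x : L), x ∈ P → (f : L) * x ∈ P := by
    intro f x hx
    induction hx using Submodule.span_induction with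
    | mem x hx =>
      obtain ⟨i, rfl⟩ := hx
      exact hF (f * b i)
    | zero => rw [mul_zero]; exact Submodule.zero_mem _
    | add x y _ _ hx hy => rw [mul_add]; exact Submodule.add_mem _ hx hy
    | smul c x _ hx =>
      rw [mul_smul_comm]
      exact Submodule.smul_mem _ _ hx
  have hP : z ∈ P := by
    induction h using Submodule.span_induction with
    | mem x hx =>
      have h1 := Submodule.smul_mem P (⟨x, hx⟩ : M) (hF 1)
      convert h1 using 1
      change x = x * ((1 : F) : L)
      rw [IntermediateField.coe_one, mul_one]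
    | zero => exact Submodule.zero_mem _
    | add x y _ _ hx hy => exact Submodule.add_mem _ hx hy
    | smul c x _ hx => exact hmul c x hx
  obtain ⟨c, hc⟩ := (Finsupp.mem_span_range_iff_exists_finsupp).1 hP
  exact ⟨c, hc.symm⟩

theorem aeval_smul' {N : ℕ} (z : Fin (N + 1) → L) (c : L)
    {Q : MvPolynomial (Fin (N + 1)) k} {d : ℕ} (hQ : Q.IsHomogeneous d) :
    MvPolynomial.aeval (fun i => c * z i) Q = c ^ d * MvPolynomial.aeval z Q := by
  rw [MvPolynomial.aeval_def, MvPolynomial.aeval_def, MvPolynomial.eval₂_eq', MvPolynomial.eval₂_eq',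
    Finset.mul_sum]
  refine Finset.sum_congr rfl fun m hm => ?_
  have h1 : ∑ i, m i = d := by
    have h2 := hQ (MvPolynomial.mem_support_iff.1 hm)
    rw [Finsupp.weight_apply, Finsupp.sum_fintype _ _ (fun i => by simp)] at h2
    simpa using h2
  have h3 : ∏ i, (c * z i) ^ m i = c ^ d * ∏ i, z i ^ m i := by
    simp only [mul_pow]
    rw [Finset.prod_mul_distrib, Finset.prod_pow_eq_pow_sum, h1]
  rw [h3]
  ring

/-- a point of an affine variety -/
theorem exists_algHom' [IsAlgClosed k] {E : Type*} [Field E] [Algebra k E] (S : Set E)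
    (hS : S.Finite) : Nonempty (Algebra.adjoin k S →ₐ[k] k) := by
  have hft : Algebra.FiniteType k (Algebra.adjoin k S) :=
    (Subalgebra.fg_iff_finiteType _).1 ⟨hS.toFinset, by simp⟩
  obtain ⟨m, hm⟩ := Ideal.exists_maximal (Algebra.adjoin k S)
  let _ : Field (Algebra.adjoin k S ⧸ m) := Ideal.Quotient.field m
  have hfin : Module.Finite k (Algebra.adjoin k S ⧸ m) :=
    finite_of_finite_type_of_isJacobsonRing k (Algebra.adjoin k S ⧸ m)
  have halg : Algebra.IsAlgebraic k (Algebra.adjoin k S ⧸ m) := Algebra.IsAlgebraic.of_finite k _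
  exact ⟨(IsAlgClosed.lift : (Algebra.adjoin k S ⧸ m) →ₐ[k] k).comp (Ideal.Quotient.mkₐ k m)⟩

/-- **Specialisation.** Let `L` be the function field of the product of a variety and a curve `C`
(with function fields `M` and `F`), and `x` a point with values in `L` of a projective variety,
which is not a point with values in `M`. Then the variety has a nonconstant point with values in
`F`. -/
theorem exists_point [CharZero k] [IsAlgClosed k] (h : Cur M F) {N : ℕ} (x : Fin (N + 1) → L)
    (p : Fin (N + 1))
    (hx : x p ≠ 0) (hnc : ∃ i, x i / x p ∉ M) :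
    ∃ y : Fin (N + 1) → F, y p ≠ 0 ∧
      (∀ (Q : MvPolynomial (Fin (N + 1)) k) (d : ℕ), Q.IsHomogeneous d →
        MvPolynomial.aeval x Q = 0 → MvPolynomial.aeval y Q = 0) ∧
      ∃ i, ∀ c : k, y i ≠ algebraMap k F c * y p := by
  classical
  choose a ha b hb hb0 hab using fun i => h.frac (x i)
  let B : L := ∏ i, b i
  have hB0 : B ≠ 0 := Finset.prod_ne_zero_iff.2 fun i _ => hb0 i
  have hX : ∀ i, B * x i ∈ RR M F := by
    intro i
    have h1 : B * x i = a i * ∏ j ∈ Finset.univ.erase i, b j := by
      have h2 : B = b i * ∏ j ∈ Finset.univ.erase i, b j :=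
        (Finset.mul_prod_erase _ _ (Finset.mem_univ i)).symm
      rw [h2, hab i]
      have := hb0 i
      field_simp
    rw [h1]
    exact mul_mem (ha i) (prod_mem fun j _ => hb j)
  choose c hc using fun i => expandF (hX i)
  let bF := Module.Basis.ofVectorSpace k F
  let s : Finset (Module.Basis.ofVectorSpaceIndex k F) := Finset.univ.biUnion fun i => (c i).support
  have hsum : ∀ i, B * x i = ∑ j ∈ s, ((c i j : M) : L) * ((bF j : F) : L) := by
    intro i
    rw [hc i, Finsupp.sum]
    refine Finset.sum_subset (Finset.subset_biUnion_of_mem (fun i => (c i).support)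
      (Finset.mem_univ i)) fun j _ hj => ?_
    rw [Finsupp.notMem_support_iff.1 hj]
    simp
  -- a nonzero coefficient
  obtain ⟨j0, hj0s, hj0⟩ : ∃ j ∈ s, c p j ≠ 0 := by
    by_contra hcon
    push Not at hcon
    have h1 : B * x p = 0 := by
      rw [hsum p]
      refine Finset.sum_eq_zero fun j hj => ?_
      rw [hcon j hj]
      simp
    exact mul_ne_zero hB0 hx h1
  obtain ⟨i1, hi1⟩ := hnc
  obtain ⟨j1, hj1s, hj1⟩ : ∃ j ∈ s, c i1 j * c p j0 - c i1 j0 * c p j ≠ 0 := by
    by_contra hcon
    push Not at hcon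
    apply hi1
    have h1 : B * x i1 * ((c p j0 : M) : L) = ((c i1 j0 : M) : L) * (B * x p) := by
      rw [hsum i1, hsum p, Finset.sum_mul, Finset.mul_sum]
      refine Finset.sum_congr rfl fun j hj => ?_
      have h2 : c i1 j * c p j0 = c i1 j0 * c p j := sub_eq_zero.1 (hcon j hj)
      have h3 : ((c i1 j : M) : L) * ((c p j0 : M) : L) =
          ((c i1 j0 : M) : L) * ((c p j : M) : L) := by exact_mod_cast congrArg Subtype.val h2
      linear_combination ((bF j : F) : L) * h3
    have h4 : ((c p j0 : M) : L) ≠ 0 := fun h => hj0 (Subtype.ext h)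
    have h5 : x i1 / x p = ((c i1 j0 / c p j0 : M) : L) := by
      push_cast
      rw [div_eq_div_iff hx h4]
      apply mul_left_cancel₀ hB0
      linear_combination h1
    rw [h5]
    exact Subtype.property _
  set δ : M := c i1 j1 * c p j0 - c i1 j0 * c p j1 with hδ
  let T : Set M := (⋃ i, ((c i).support.image (c i) : Set M)) ∪ {(c p j0)⁻¹, δ⁻¹}
  have hT : T.Finite := (Set.finite_iUnion fun i => Finset.finite_toSet _).union
    (Set.Finite.insert _ (Set.finite_singleton _))
  obtain ⟨ψ⟩ := exists_algHom' (k := k) T hT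
  set A := Algebra.adjoin k T with hA
  have hcA : ∀ i j, c i j ∈ A := by
    intro i j
    by_cases hij : c i j = 0
    · rw [hij]; exact A.zero_mem
    · refine Algebra.subset_adjoin (Or.inl (Set.mem_iUnion.2 ⟨i, ?_⟩))
      exact Finset.mem_coe.2 (Finset.mem_image_of_mem _ (Finsupp.mem_support_iff.2 hij))
  have hi0 : (c p j0)⁻¹ ∈ A := Algebra.subset_adjoin (Or.inr (Or.inl rfl))
  have hiδ : δ⁻¹ ∈ A := Algebra.subset_adjoin (Or.inr (Or.inr rfl))
  let ν : Fin (N + 1) → Module.Basis.ofVectorSpaceIndex k F → A := fun i j => ⟨c i j, hcA i j⟩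
  have hν0 : ψ (ν p j0) ≠ 0 := by
    intro h0
    have h1 : ν p j0 * ⟨_, hi0⟩ = 1 := Subtype.ext (mul_inv_cancel₀ hj0)
    have h2 := congrArg ψ h1
    rw [map_mul, h0, zero_mul, map_one] at h2
    exact zero_ne_one h2
  have hνδ : ψ (ν i1 j1) * ψ (ν p j0) - ψ (ν i1 j0) * ψ (ν p j1) ≠ 0 := by
    intro h0
    have h1 : (ν i1 j1 * ν p j0 - ν i1 j0 * ν p j1) * ⟨_, hiδ⟩ = 1 :=
      Subtype.ext (mul_inv_cancel₀ hj1)
    have h2 := congrArg ψ h1
    rw [map_mul, map_sub, map_mul, map_mul, h0, zero_mul, map_one] at h2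
    exact zero_ne_one h2
  -- the ring generated by `A` and `F`
  let Φ : F ⊗[k] A →ₐ[k] L := Algebra.TensorProduct.productMap F.val (M.val.comp A.val)
  let Ψ : F ⊗[k] A →ₐ[k] F := Algebra.TensorProduct.productMap (AlgHom.id k F)
    ((Algebra.ofId k F).comp ψ)
  have hΦ : Function.Injective Φ := by
    let bA := Module.Basis.ofVectorSpace k A
    have hli : LinearIndependent k (fun i => ((bA i : A) : M)) := by
      have h1 := bA.linearIndependent.map' A.val.toLinearMap
        (LinearMap.ker_eq_bot.2 Subtype.val_injective)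
      exact h1
    have hlF := h.linDisj _ hli
    rw [injective_iff_map_eq_zero]
    intro z hz
    let bT := Algebra.TensorProduct.basis F bA
    have h1 : z = (bT.repr z).sum fun i f => f • (1 ⊗ₜ[k] bA i : F ⊗[k] A) := by
      conv_lhs => rw [← bT.linearCombination_repr z]
      rw [Finsupp.linearCombination_apply]
      refine Finsupp.sum_congr fun i _ => ?_
      rw [Algebra.TensorProduct.basis_apply]
    have h2 : Φ z = (bT.repr z).sum fun i f => f • (((bA i : A) : M) : L) := by
      conv_lhs => rw [h1]
      rw [Finsupp.sum, map_sum, Finsupp.sum]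
      refine Finset.sum_congr rfl fun i _ => ?_
      rw [TensorProduct.smul_tmul', smul_eq_mul, mul_one]
      change Algebra.TensorProduct.productMap F.val (M.val.comp A.val) _ = _
      rw [Algebra.TensorProduct.productMap_apply_tmul, Algebra.smul_def]
      rfl
    have h3 : bT.repr z = 0 := by
      rw [linearIndependent_iff] at hlF
      apply hlF
      rw [Finsupp.linearCombination_apply, ← h2, hz]
    exact (LinearEquiv.map_eq_zero_iff bT.repr).1 h3
  let Xt : Fin (N + 1) → F ⊗[k] A := fun i => ∑ j ∈ s, (bF j : F) ⊗ₜ[k] ν i j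
  have hΦX : ∀ i, Φ (Xt i) = B * x i := by
    intro i
    rw [hsum i]
    change Φ (∑ j ∈ s, (bF j : F) ⊗ₜ[k] ν i j) = _
    rw [map_sum]
    refine Finset.sum_congr rfl fun j _ => ?_
    change Algebra.TensorProduct.productMap F.val (M.val.comp A.val) _ = _
    rw [Algebra.TensorProduct.productMap_apply_tmul, mul_comm]
    rfl
  let y : Fin (N + 1) → F := fun i => Ψ (Xt i)
  have hy : ∀ i, y i = ∑ j ∈ s, ψ (ν i j) • bF j := by
    intro i
    change Ψ (∑ j ∈ s, (bF j : F) ⊗ₜ[k] ν i j) = _
    rw [map_sum]
    refine Finset.sum_congr rfl fun j _ => ?_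
    change Algebra.TensorProduct.productMap (AlgHom.id k F) ((Algebra.ofId k F).comp ψ) _ = _
    rw [Algebra.TensorProduct.productMap_apply_tmul, Algebra.smul_def, mul_comm]
    rfl
  have hcoef : ∀ f : Module.Basis.ofVectorSpaceIndex k F → k, ∑ j ∈ s, f j • bF j = 0 →
      ∀ j ∈ s, f j = 0 := fun f hf => linearIndependent_iff'.1 bF.linearIndependent s f hf
  refine ⟨y, fun h0 => ?_, fun Q d hQ hQx => ?_, i1, fun e he => ?_⟩
  · rw [hy p] at h0
    exact hν0 (hcoef _ h0 j0 hj0s)
  · have h1 : MvPolynomial.aeval (fun i => B * x i) Q = 0 := by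
      rw [aeval_smul' _ _ hQ, hQx, mul_zero]
    have h2 : Φ (MvPolynomial.aeval Xt Q) = 0 := by
      have h5 : Φ (MvPolynomial.aeval Xt Q) = MvPolynomial.aeval (fun i => Φ (Xt i)) Q := by
        have h6 := congrArg (fun g => g Q) (MvPolynomial.comp_aeval Xt Φ)
        exact h6
      rw [h5, show (fun i => Φ (Xt i)) = fun i => B * x i from funext hΦX]
      exact h1
    have h3 : MvPolynomial.aeval Xt Q = 0 := hΦ (by rw [h2, map_zero])
    have h4 : Ψ (MvPolynomial.aeval Xt Q) = MvPolynomial.aeval y Q := by
      have h6 := congrArg (fun g => g Q) (MvPolynomial.comp_aeval Xt Ψ)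
      exact h6
    rw [← h4, h3, map_zero]
  · rw [hy i1, hy p, Finset.mul_sum, ← sub_eq_zero, ← Finset.sum_sub_distrib] at he
    have h1 : ∑ j ∈ s, (ψ (ν i1 j) - e * ψ (ν p j)) • bF j = 0 := by
      rw [← he]
      refine Finset.sum_congr rfl fun j _ => ?_
      rw [sub_smul, mul_smul, Algebra.smul_def e]
    have h2 := hcoef _ h1
    have h3 := h2 j1 hj1s
    have h4 := h2 j0 hj0s
    apply hνδ
    linear_combination ψ (ν p j0) * h3 - ψ (ν p j1) * h4

end

end Pool.Agent.H192KB
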